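import Pool.Agent.H60.ZCL.BTail
import Pool.Agent.H13.K2S.All

/-!
# Active directions: statements

* `ActQ N al`: the numbers `N` are at least `al` times the length on most of the intervals of the
  meshes of `[0, g]`, for all small `g`.
* `ActB N S kap`: in the class `S` the entropy of the coordinate `kap` of the direction with `q' J`
  digits, given the direction with `q J` digits, the point, the time and the side information, is at
  least `N q q' log 2 J`.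
* `StartStmt m`: from the maximal families, a class of families (zooms into tubes) with a gain and
  with an active coordinate.
-/

set_option autoImplicit false

namespace Pool.GEN

open Finset Real
open Pool.Agent.H49.Ent Pool.Agent.H32.Dense Pool.STK Pool.KA Pool.K2S Pool.PB Pool.S6C

variable {m J : ℕ}

/-- **(ACT), pure part**, rational scales. -/
def ActQ (N : ℚ → ℚ → ℝ) (al : ℝ) : Prop :=
  ∀ ε : ℝ, 0 < ε → ∃ g₀ : ℝ, 0 < g₀ ∧ ∀ g : ℚ, 0 < g → (g : ℝ) ≤ g₀ → ∀ M : ℕ,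
    (((range M).filter fun i : ℕ => N (i * (g / M)) ((i + 1) * (g / M)) <
      (al - ε) * ((g : ℝ) / M)).card : ℝ) ≤ ε * M

/-- **(ACT), the class**, rational scales. -/
def ActB (N : ℚ → ℚ → ℝ) (S : PCl m) (kap : Fin m) : Prop :=
  ∀ q q' : ℚ, 0 ≤ q → q ≤ q' → q' ≤ 1 → ∀ h : ℝ, 0 < h → Bas S (fun J F A =>
    (N q q' - h) * Real.log 2 * J ≤ CH (Pool.Agent.H49.Ent.cond F.p A True)
      (fun ω => F.D ⌊((q' : ℚ) : ℝ) * J⌋₊ ω kap)
      (fun ω => (F.D ⌊((q : ℚ) : ℝ) * J⌋₊ ω, (F.X J ω, F.W ω))))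

/-- (ACT), pure part, real scales. -/
def ActR (N : ℝ → ℝ → ℝ) (al : ℝ) : Prop :=
  ∀ ε : ℝ, 0 < ε → ∃ g₀ : ℝ, 0 < g₀ ∧ ∀ g : ℝ, 0 < g → g ≤ g₀ → ∀ M : ℕ,
    (((range M).filter fun i : ℕ => N (i * (g / M)) ((i + 1) * (g / M)) <
      (al - ε) * (g / M)).card : ℝ) ≤ ε * M

/-- (ACT), the class, real scales. -/
def ActBr (N : ℝ → ℝ → ℝ) (S : PCl m) (kap : Fin m) : Prop :=
  ∀ q q' : ℝ, 0 ≤ q → q ≤ q' → q' ≤ 1 → ∀ h : ℝ, 0 < h → Bas S (fun J F A =>
    (N q q' - h) * Real.log 2 * J ≤ CH (Pool.Agent.H49.Ent.cond F.p A True)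
      (fun ω => F.D ⌊q' * J⌋₊ ω kap)
      (fun ω => (F.D ⌊q * J⌋₊ ω, (F.X J ω, F.W ω))))

theorem ActR.rat {N : ℝ → ℝ → ℝ} {al : ℝ} (h : ActR N al) :
    ActQ (fun q q' => N q q') al := by
  intro ε hε
  obtain ⟨g₀, hg₀, h1⟩ := h ε hε
  refine ⟨g₀, hg₀, fun g hg hgg M => ?_⟩
  have := h1 g (by exact_mod_cast hg) hgg M
  push_cast
  exact this

theorem ActBr.rat {N : ℝ → ℝ → ℝ} {S : PCl m} {kap : Fin m} (h : ActBr N S kap) :
    ActB (fun q q' => N q q') S kap :=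
  fun q q' h0 h1 h2 => h q q' (by exact_mod_cast h0) (by exact_mod_cast h1) (by exact_mod_cast h2)

/-- **The start**: a class of families with a gain and with an active coordinate. -/
def StartStmt (m : ℕ) : Prop :=
  ∀ a R : ℝ, 1 < a → 0 < R → UBa m a R → (FCl.mx m a R).toP.Ne →
    ∃ (S : PCl m) (kap : Fin m) (N : ℚ → ℚ → ℝ) (al C M ρ : ℝ), S.Ne ∧
      (∀ (τ : ℝ) (J : ℕ) (F : Fam m J) (A : F.Ω → Prop), 0 < τ → S.St τ J F A →
        0 < Pe F.p A ∧ ∀ h : IsLaw (Pool.Agent.H49.Ent.cond F.p A True),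
          (F.res A True h).Tm (C * τ * J)) ∧
      Bas S (fun J F A => ∀ k : ℕ, k ≤ J → (cnt F.p (ptr F k) A : ℝ) ≤ Real.exp (M * J)) ∧
      0 < ρ ∧ Bas S (fun J F A =>
        ρ * J ≤ CH (Pool.Agent.H49.Ent.cond F.p A True) (F.D J) F.Z -
          CH (Pool.Agent.H49.Ent.cond F.p A True) (F.X J) F.W) ∧
      0 < al ∧ (∀ q q', 0 ≤ N q q') ∧ ActQ N al ∧ ActB N S kap

end Pool.GEN
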