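import Pool.Agent.H72.ACT.Cls
import Pool.Agent.H64.KS6.WfeA

/-!
# The start: tubes with a gain and with an active coordinate
-/

set_option autoImplicit false

namespace Pool.GEN

open Finset Real
open Pool.Agent.H49.Ent Pool.Agent.H32.Dense Pool.STK Pool.KA Pool.K2S Pool.PB Pool.S6C

variable {m : ℕ}

/-- The scales of the tube. -/
theorem tub_floor {q x : ℝ} (hq0 : 0 ≤ q) (hx0 : 0 ≤ x) (hx1 : x ≤ 1) {J : ℕ}
    (hq : ⌊q * (J : ℝ)⌋₊ ≤ J) (hX : 0 ≤ q + (1 - q) * x) :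
    |(⌊(q + (1 - q) * x) * (J : ℝ)⌋₊ : ℝ) -
      ((⌊q * (J : ℝ)⌋₊ + ⌊x * ((J - ⌊q * (J : ℝ)⌋₊ : ℕ) : ℝ)⌋₊ : ℕ) : ℝ)| ≤ 3 := by
  have hJ : (0 : ℝ) ≤ J := Nat.cast_nonneg J
  have a1 := Nat.floor_le (show 0 ≤ q * (J : ℝ) by positivity)
  have a2 := Nat.lt_floor_add_one (q * (J : ℝ))
  have a3 := Nat.floor_le (show 0 ≤ (q + (1 - q) * x) * (J : ℝ) by positivity)
  have a4 := Nat.lt_floor_add_one ((q + (1 - q) * x) * (J : ℝ))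
  have a5 := Nat.floor_le (show 0 ≤ x * ((J - ⌊q * (J : ℝ)⌋₊ : ℕ) : ℝ) by positivity)
  have a6 := Nat.lt_floor_add_one (x * ((J - ⌊q * (J : ℝ)⌋₊ : ℕ) : ℝ))
  obtain ⟨n₁, hn₁⟩ : ∃ n₁ : ℕ, n₁ = ⌊(q + (1 - q) * x) * (J : ℝ)⌋₊ := ⟨_, rfl⟩
  obtain ⟨n₂, hn₂⟩ : ∃ n₂ : ℕ, n₂ = ⌊x * ((J - ⌊q * (J : ℝ)⌋₊ : ℕ) : ℝ)⌋₊ := ⟨_, rfl⟩
  rw [← hn₁] at a3 a4 ⊢
  rw [← hn₂] at a5 a6 ⊢
  obtain ⟨n₃, hn₃⟩ : ∃ n₃ : ℕ, n₃ = ⌊q * (J : ℝ)⌋₊ := ⟨_, rfl⟩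
  rw [← hn₃] at a1 a2 a5 a6 hq ⊢
  rw [Nat.cast_sub hq] at a5 a6
  have e1 : (q + (1 - q) * x) * (J : ℝ) = n₃ + x * (J - n₃) + (1 - x) * (q * J - n₃) := by ring
  have e2 : 0 ≤ (1 - x) * (q * J - n₃) := mul_nonneg (by linarith) (by linarith)
  have e3 : (1 - x) * (q * J - n₃) ≤ 1 := by nlinarith
  push_cast
  rw [abs_le]
  rw [e1] at a3 a4
  constructor <;> linarith

/-- **The activity in the tubes.** -/
theorem tub_actB {S : PCl m} {N : Finset (Fin m) → ℝ → ℝ → ℝ} (hN : ActN S N)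
    (hpos : ∀ (τ : ℝ) (J : ℕ) (F : Fam m J) (A : F.Ω → Prop), S.St τ J F A → 0 < Pe F.p A)
    (kap : Fin m) {q : ℝ} (hq0 : 0 ≤ q) (hq1 : q ≤ 1 / 2) :
    ActBr (fun x y => max 0 (N {kap} (q + (1 - q) * x) (q + (1 - q) * y) / (1 - q)))
      (TubC S q) kap := by
  intro x y hx0 hxy hy1 h hh
  have hx1 : x ≤ 1 := hxy.trans hy1
  have hy0 : 0 ≤ y := hx0.trans hxy
  have hl2 : 0 < Real.log 2 := Real.log_pos (by norm_num)
  have hcc : 0 ≤ cc m := by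
    unfold cc
    exact mul_nonneg (by positivity) (Real.log_nonneg (by norm_num))
  obtain ⟨X, hX⟩ : ∃ X, X = q + (1 - q) * x := ⟨_, rfl⟩
  obtain ⟨Y, hY⟩ : ∃ Y, Y = q + (1 - q) * y := ⟨_, rfl⟩
  have hX0 : 0 ≤ X := by rw [hX]; nlinarith
  have hX1 : X ≤ 1 := by rw [hX]; nlinarith
  have hY0 : 0 ≤ Y := by rw [hY]; nlinarith
  have hY1 : Y ≤ 1 := by rw [hY]; nlinarith
  have hXY : X ≤ Y := by rw [hX, hY]; nlinarith
  have hn0 := hN.nonneg {kap} X Y hX0 hX1 hY0 hY1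
  have hn1 : N {kap} X Y ≤ m := by
    refine (hN.le {kap} X Y hX0 hXY hY1).trans ?_
    have : (0 : ℝ) ≤ m := Nat.cast_nonneg m
    nlinarith
  have hm0 : (0 : ℝ) ≤ m := Nat.cast_nonneg m
  obtain ⟨J₂, hJ₂⟩ := exists_nat_gt ((8 * m * Real.log 2 + 2 * cc m) / (h * Real.log 2 / 2))
  have hpc : Bas S (fun _ F A => 0 < Pe F.p A) := ⟨1, one_pos, 0, fun J _ F A hA => hpos 1 J F A hA⟩
  refine bas_tub J₂ ((hN.num {kap} X Y hX0 hX1 hY0 hY1 (h * Real.log 2 / 4)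
    (by positivity)).and hpc) ?_
  rintro J F A hq hJ' ⟨k1, k2⟩
  have hl := isLaw_cond F.isLaw k2
  obtain ⟨-, hJJ⟩ := tub_res hq0 hq1 J
  have hfx := tub_floor hq0 hx0 hx1 hq (hX ▸ hX0)
  have hfy := tub_floor hq0 hy0 hy1 hq (hY ▸ hY0)
  rw [← hX] at hfx
  rw [← hY] at hfy
  have d1 := Tb.dir (F.res A True hl) hq ⌊x * ((J - ⌊q * (J : ℝ)⌋₊ : ℕ) : ℝ)⌋₊
    ⌊y * ((J - ⌊q * (J : ℝ)⌋₊ : ℕ) : ℝ)⌋₊ kap
  have d2 := blk_near (F := F) k2 {kap} ⌊X * (J : ℝ)⌋₊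
    (⌊q * (J : ℝ)⌋₊ + ⌊x * ((J - ⌊q * (J : ℝ)⌋₊ : ℕ) : ℝ)⌋₊) ⌊Y * (J : ℝ)⌋₊
    (⌊q * (J : ℝ)⌋₊ + ⌊y * ((J - ⌊q * (J : ℝ)⌋₊ : ℕ) : ℝ)⌋₊)
  rw [blk_coord F k2 kap (⌊q * (J : ℝ)⌋₊ + _)] at d2
  have d3 := (abs_le.1 k1).1
  have d4 : (m : ℝ) * Real.log 2 * (|(⌊X * (J : ℝ)⌋₊ : ℝ) -
      ((⌊q * (J : ℝ)⌋₊ + ⌊x * ((J - ⌊q * (J : ℝ)⌋₊ : ℕ) : ℝ)⌋₊ : ℕ) : ℝ)| +
      |(⌊Y * (J : ℝ)⌋₊ : ℝ) -
      ((⌊q * (J : ℝ)⌋₊ + ⌊y * ((J - ⌊q * (J : ℝ)⌋₊ : ℕ) : ℝ)⌋₊ : ℕ) : ℝ)|) ≤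
      m * Real.log 2 * (3 + 3) :=
    mul_le_mul_of_nonneg_left (add_le_add hfx hfy) (by positivity)
  obtain ⟨J', hJ'e⟩ : ∃ J', J' = J - ⌊q * (J : ℝ)⌋₊ := ⟨_, rfl⟩
  have hJ'r : (J' : ℝ) ≤ (1 - q) * J + 1 := by
    rw [hJ'e, Nat.cast_sub hq]
    have := Nat.lt_floor_add_one (q * (J : ℝ))
    linarith
  have d5 : CH (Pool.Agent.H49.Ent.cond F.p A True)
      (fun ω => F.D (⌊q * (J : ℝ)⌋₊ + ⌊y * ((J - ⌊q * (J : ℝ)⌋₊ : ℕ) : ℝ)⌋₊) ω kap)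
      (fun ω => (F.D (⌊q * (J : ℝ)⌋₊ + ⌊x * ((J - ⌊q * (J : ℝ)⌋₊ : ℕ) : ℝ)⌋₊) ω,
        (F.X J ω, F.W ω))) - 2 * cc m ≤
      CH (Pool.Agent.H49.Ent.cond F.p A True)
        (fun ω => (F.tub _ hq).D ⌊y * ((J - ⌊q * (J : ℝ)⌋₊ : ℕ) : ℝ)⌋₊ ω kap)
        (fun ω => ((F.tub _ hq).D ⌊x * ((J - ⌊q * (J : ℝ)⌋₊ : ℕ) : ℝ)⌋₊ ω,
          ((F.tub _ hq).X (J - ⌊q * (J : ℝ)⌋₊) ω, (F.tub _ hq).W ω))) := d1
  refine le_trans ?_ d5
  beta_reduce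
  rw [← hX, ← hY]
  have e1 : max 0 (N {kap} X Y / (1 - q)) = N {kap} X Y / (1 - q) :=
    max_eq_right (div_nonneg hn0 (by linarith))
  rw [e1, ← hJ'e]
  rw [← hJ'e] at hJJ hJ' d2 d4
  beta_reduce at d3
  have hq2 : 0 < 1 - q := by linarith
  have e2 : N {kap} X Y / (1 - q) * J' ≤ N {kap} X Y * J + 2 * m := by
    have a1 : N {kap} X Y / (1 - q) * J' ≤ N {kap} X Y / (1 - q) * ((1 - q) * J + 1) :=
      mul_le_mul_of_nonneg_left hJ'r (div_nonneg hn0 hq2.le)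
    have a2 : N {kap} X Y / (1 - q) * ((1 - q) * J + 1) =
        N {kap} X Y * J + N {kap} X Y / (1 - q) := by
      field_simp
    have a3 : N {kap} X Y / (1 - q) ≤ 2 * m := by
      rw [div_le_iff₀ hq2]
      nlinarith
    linarith
  have e3 : 8 * m * Real.log 2 + 2 * cc m ≤ h * Real.log 2 / 2 * J' := by
    have a1 : (8 * m * Real.log 2 + 2 * cc m) / (h * Real.log 2 / 2) < J' :=
      hJ₂.trans_le (by exact_mod_cast hJ')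
    rw [div_lt_iff₀ (by positivity)] at a1
    linarith
  have e4 : h * Real.log 2 / 4 * (J : ℝ) ≤ h * Real.log 2 / 4 * (2 * J') :=
    mul_le_mul_of_nonneg_left hJJ (by positivity)
  have e5 := mul_le_mul_of_nonneg_left e2 hl2.le
  have e6 : (N {kap} X Y / (1 - q) - h) * Real.log 2 * J' =
      Real.log 2 * (N {kap} X Y / (1 - q) * J') - h * Real.log 2 * J' := by ring
  rw [e6]
  linarith

/-- The pure part. -/
theorem tub_actR {N : ℝ → ℝ → ℝ} {q al : ℝ} (hq1 : q ≤ 1 / 2)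
    (h : ∀ ε : ℝ, 0 < ε → ∃ g₀ : ℝ, 0 < g₀ ∧ ∀ g : ℝ, 0 < g → g ≤ g₀ → q + g ≤ 1 →
      ∀ M : ℕ, 0 < M → ∃ Gd ⊆ Finset.range M, (1 - ε) * M ≤ Gd.card ∧ ∀ l ∈ Gd,
        (al - ε) * (g / M) ≤ N (q + g * l / M) (q + g * (l + 1 : ℕ) / M)) :
    ActR (fun x y => max 0 (N (q + (1 - q) * x) (q + (1 - q) * y) / (1 - q))) al := by
  classical
  intro ε hε
  obtain ⟨g₀, hg₀, h⟩ := h ε hε
  have hq2 : 0 < 1 - q := by linarith
  refine ⟨min 1 (g₀ / (1 - q)), lt_min one_pos (by positivity), fun g hg hgg M => ?_⟩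
  rcases Nat.eq_zero_or_pos M with hM | hM
  · subst hM
    simp
  have hg1 : g ≤ 1 := hgg.trans (min_le_left _ _)
  have hg2 : (1 - q) * g ≤ g₀ := by
    have := hgg.trans (min_le_right _ _)
    rw [le_div_iff₀ hq2] at this
    linarith
  have hMr : (0 : ℝ) < M := by exact_mod_cast hM
  obtain ⟨Gd, hGd, hcard, hG⟩ := h ((1 - q) * g) (by positivity) hg2 (by nlinarith) M hM
  have h1 : ((range M).filter fun i : ℕ =>
      max 0 (N (q + (1 - q) * (i * (g / M))) (q + (1 - q) * ((i + 1) * (g / M))) / (1 - q)) <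
        (al - ε) * (g / M)) ⊆ range M \ Gd := by
    intro i hi
    rw [mem_filter] at hi
    rw [mem_sdiff]
    refine ⟨hi.1, fun hiG => ?_⟩
    have h2 := hG i hiG
    have e1 : q + (1 - q) * g * i / M = q + (1 - q) * (i * (g / M)) := by ring
    have e2 : q + (1 - q) * g * ((i + 1 : ℕ) : ℝ) / M = q + (1 - q) * ((i + 1) * (g / M)) := by
      push_cast
      ring
    rw [e1, e2] at h2
    have h3 := lt_of_le_of_lt (le_max_right _ _) hi.2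
    rw [div_lt_iff₀ hq2] at h3
    have e3 : (al - ε) * ((1 - q) * g / M) = (al - ε) * (g / M) * (1 - q) := by ring
    rw [e3] at h2
    linarith
  have h4 : (((range M).filter fun i : ℕ =>
      max 0 (N (q + (1 - q) * (i * (g / M))) (q + (1 - q) * ((i + 1) * (g / M))) / (1 - q)) <
        (al - ε) * (g / M)).card : ℝ) ≤ ((range M \ Gd).card : ℝ) := by
    exact_mod_cast card_le_card h1
  have h5 : ((range M \ Gd).card : ℝ) = M - Gd.card := by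
    rw [card_sdiff_of_subset hGd, Nat.cast_sub (card_le_card hGd), card_range]
  rw [h5] at h4
  have h6 : (1 - ε) * M = M - ε * M := by ring
  have h7 : (((range M).filter fun i : ℕ =>
      max 0 (N (q + (1 - q) * (i * (g / M))) (q + (1 - q) * ((i + 1) * (g / M))) / (1 - q)) <
        (al - ε) * (g / M)).card : ℝ) ≤ ε * M := by linarith
  exact h7

/-- **The start.** -/
theorem start_thm (m : ℕ) : StartStmt m := by
  intro a R ha hR hU hNe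
  have hpos₀ : ∀ (τ : ℝ) (J : ℕ) (F : Fam m J) (A : F.Ω → Prop),
      (FCl.mx m a R).toP.St τ J F A → 0 < Pe F.p A :=
    fun τ J F A h => lt_of_lt_of_le (Real.exp_pos _) h.2
  have hcnt := cnt_pos (S := (FCl.mx m a R).toP) ha.le hR fun τ J F A h => st_mx.1 h
  have hM : 0 ≤ 2 + ((m : ℝ) + 1) * Real.log 2 + cc m := by
    have h1 : 0 ≤ Real.log 2 := Real.log_nonneg (by norm_num)
    have h2 : 0 ≤ cc m := by
      unfold cc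
      exact mul_nonneg (by positivity) (Real.log_nonneg (by norm_num))
    positivity
  obtain ⟨S, N, hS, hsub, hN⟩ := actN_exists hNe hpos₀
    (Bas.mono 0 hcnt fun J _ F A h => h J le_rfl)
  obtain ⟨q₁, hq₁⟩ : ∃ q₁, q₁ = min (1 / 2) (R / (8 * (m + 1))) := ⟨_, rfl⟩
  have hq₁0 : 0 < q₁ := by
    rw [hq₁]
    exact lt_min (by norm_num) (by positivity)
  have hq₁1 : q₁ ≤ 1 / 2 := by rw [hq₁]; exact min_le_left _ _
  have hq₁2 : (m : ℝ) * q₁ ≤ R / 2 / 4 := by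
    have h1 : q₁ ≤ R / (8 * (m + 1)) := by rw [hq₁]; exact min_le_right _ _
    rw [le_div_iff₀ (by positivity)] at h1
    nlinarith
  obtain ⟨kap, q, al, hq0, hqq, hal, hch⟩ := hN.choice hq₁0 (by linarith)
    (act_pos ha hR hU hS hsub hN hq₁0 hq₁1)
  have hq1 : q ≤ 1 / 2 := by linarith
  have hst : ∀ (τ : ℝ) (J : ℕ) (F : Fam m J) (A : F.Ω → Prop), 0 < τ → S.St τ J F A →
      0 < Pe F.p A ∧ ∀ h : IsLaw (Pool.Agent.H49.Ent.cond F.p A True),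
        (F.res A True h).Tm (6 * τ * J) := by
    intro τ J F A hτ h
    have h1 := hsub τ J F A h
    refine ⟨hpos₀ τ J F A h1, fun hl => ?_⟩
    have h2 := Pool.S6K.Wfe.res_Tm hτ.le hτ.le h1.1.1 h1.1.2.1.1 h1.1.2.2 h1.2 hl
    have e : (5 * τ + τ) * (J : ℝ) = 6 * τ * J := by ring
    rw [e] at h2
    exact h2
  refine ⟨TubC S q, kap, _, al, 2 * 6, _, R / 2 / 2, tub_ne hS hq0.le hq1,
    tub_st (by norm_num) hq0.le hq1 hst, tub_cnt_bas hM hq0.le hq1 (Bas.sub hsub hcnt),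
    by linarith, tub_gain_bas (C := 6) (by norm_num) (by linarith) hq0.le ?_ hst
      (Bas.sub hsub (base_gain ha hR)), hal, ?_, (tub_actR hq1 hch).rat,
    (tub_actB hN (fun τ J F A h => hpos₀ τ J F A (hsub τ J F A h)) kap hq0.le hq1).rat⟩
  · have : (m : ℝ) * q ≤ m * q₁ := mul_le_mul_of_nonneg_left hqq.le (Nat.cast_nonneg _)
    linarith
  · intro x y
    exact le_max_left _ _

end Pool.GEN
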