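import Pool.Agent.H2.GEN.Act4
import Pool.Agent.H54.GN.Base
import Pool.Agent.H5.K3.Act

/-!
# The directions of the maximal families are active
-/

set_option autoImplicit false

namespace Pool.GEN

open Finset Real
open Pool.Agent.H49.Ent Pool.Agent.H32.Dense Pool.STK Pool.KA Pool.K2S Pool.PB Pool.S6C

variable {m J : ℕ}

/-- **The maximal families are active.** -/
theorem base_act {a R : ℝ} (ha : 1 < a) (hU : UBa m a R) {g : ℝ} (hg0 : 0 ≤ g)
    (hg1 : g ≤ 1 / 2) {h : ℝ} (hh : 0 < h) :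
    Bas (FCl.mx m a R).toP (fun J F A => R / a * (g * J) - h * J ≤
      CH (Pool.Agent.H49.Ent.cond F.p A True) (F.D ⌊g * J⌋₊) (fun ω => (F.X J ω, F.W ω))) := by
  have ha0 : 0 < a := by linarith
  obtain ⟨τ, hτ, J₁, hact⟩ := Pool.K3.act_thm m a R ha.le hU (η := h / 2) (x₀ := 1 / 2)
    (by linarith) (by norm_num)
  obtain ⟨τ', hτ'⟩ : ∃ τ', τ' = τ / (6 * (1 + a)) := ⟨_, rfl⟩
  have hc : 0 < 6 * (1 + a) := by positivity
  have hτ0 : 0 < τ' := by rw [hτ']; positivity
  have hτ1 : 6 * (1 + a) * τ' = τ := by rw [hτ']; field_simp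
  obtain ⟨J₂, hJ₂⟩ := exists_nat_gt (2 * (|R / a|) / h)
  refine ⟨τ', hτ0, max J₁ J₂, fun J hJ F A hS => ?_⟩
  have hJr : (0 : ℝ) ≤ J := Nat.cast_nonneg J
  obtain ⟨⟨hTr, hMx, hRb⟩, hP⟩ := hS
  obtain ⟨hl, -, -, h3, h4⟩ := res_thm m J F a (τ' * J) (τ' * J) (τ' * J) (by linarith)
    (by positivity) (by positivity) hTr hRb hMx.1 A hP
  have h5 := hMx.2
  have h6 : (F.res A True hl).Mx a R τ := by
    refine ⟨?_, ?_⟩
    · unfold Fam.Tm at h3 ⊢
      have : 6 * τ' * (J : ℝ) ≤ τ * J := by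
        refine mul_le_mul_of_nonneg_right ?_ hJr
        rw [← hτ1]
        nlinarith
      linarith
    · have e1 : (R - τ) * (J : ℝ) ≤ (R - τ') * J - (1 + a) * (4 * (τ' * J) + τ' * J) := by
        have e2 : (1 + a) * (5 * (τ' * J)) + τ' * J ≤ τ * J := by
          rw [← hτ1]
          have : 0 ≤ a * (τ' * J) := by positivity
          have h7 : 0 ≤ τ' * J := by positivity
          nlinarith
        linarith
      linarith
  have hq1 : ⌊g * (J : ℝ)⌋₊ ≤ J := by
    refine Nat.floor_le_of_le ?_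
    nlinarith
  have hq2 : (⌊g * (J : ℝ)⌋₊ : ℝ) ≤ (1 - 1 / 2) * J := by
    refine (Nat.floor_le (by positivity)).trans ?_
    nlinarith
  have h7 := hact J ((le_max_left _ _).trans hJ) (F.res A True hl) h6 _ hq1 hq2
  refine le_trans ?_ h7
  have h8 : R / a * (g * J) - R / a * ⌊g * (J : ℝ)⌋₊ ≤ |R / a| := by
    rw [← mul_sub]
    have b1 := Nat.floor_le (show 0 ≤ g * (J : ℝ) by positivity)
    have b2 := Nat.lt_floor_add_one (g * (J : ℝ))
    have b3 : |g * (J : ℝ) - ⌊g * (J : ℝ)⌋₊| ≤ 1 := by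
      rw [abs_le]
      constructor <;> linarith
    calc _ ≤ |R / a * (g * J - ⌊g * (J : ℝ)⌋₊)| := le_abs_self _
      _ = |R / a| * |g * (J : ℝ) - ⌊g * (J : ℝ)⌋₊| := abs_mul _ _
      _ ≤ |R / a| * 1 := mul_le_mul_of_nonneg_left b3 (abs_nonneg _)
      _ = _ := mul_one _
  have h9 : |R / a| ≤ h / 2 * J := by
    have : 2 * (|R / a|) / h < J := hJ₂.trans_le (by exact_mod_cast (le_max_right _ _).trans hJ)
    rw [div_lt_iff₀ hh] at this
    linarith
  linarith

/-- The activity number is positive. -/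
theorem act_pos {a R : ℝ} (ha : 1 < a) (hR : 0 < R) (hU : UBa m a R) {S : PCl m} (hS : S.Ne)
    (hs : ∀ (τ : ℝ) (J : ℕ) (F : Fam m J) (A : F.Ω → Prop), S.St τ J F A →
      (FCl.mx m a R).toP.St τ J F A) {N : Finset (Fin m) → ℝ → ℝ → ℝ} (hN : ActN S N) {g : ℝ}
    (hg0 : 0 < g) (hg1 : g ≤ 1 / 2) : 0 < N univ 0 g := by
  have ha0 : 0 < a := by linarith
  have hl2 : 0 < Real.log 2 := Real.log_pos (by norm_num)
  have h1 : R / a * g ≤ N univ 0 g * Real.log 2 := by
    refine le_of_forall_pos_le_add fun h hh => ?_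
    refine lim_le hS (f := fun J _ _ => R / a * (g * J)) (C := 0) (fun e he => ?_)
      (hN.act g hg0.le (by linarith)) ?_
    · refine ⟨1, one_pos, 0, fun J _ F A _ => ?_⟩
      have : R / a * (g * J) - R / a * g * (J : ℝ) = 0 := by ring
      simp only [this, abs_zero]
      positivity
    · refine Bas.mono 0 (Bas.sub hs (base_act ha hU hg0.le hg1 hh)) fun J _ F A hA => ?_
      linarith
  have h2 : 0 < R / a * g := by positivity
  by_contra hcon
  push Not at hcon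
  nlinarith

end Pool.GEN
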