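import Pool.Agent.H72.ACT.Gain
import Pool.Agent.H72.ACT.Base

/-!
# The class of the tubes
-/

set_option autoImplicit false

namespace Pool.GEN

open Finset Real
open Pool.Agent.H49.Ent Pool.Agent.H32.Dense Pool.STK Pool.KA Pool.K2S Pool.PB Pool.S6C

variable {m : ℕ}

/-- The zooms of the families of a class into tubes of width `2 ^ (-q J)`. -/
inductive TubSt (S : PCl m) (q : ℝ) (τ : ℝ) : ∀ (J : ℕ) (F : Fam m J), (F.Ω → Prop) → Prop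
  | mk (J : ℕ) (F : Fam m J) (A : F.Ω → Prop) (hq : ⌊q * J⌋₊ ≤ J) (hS : S.St τ J F A) :
      TubSt S q τ (J - ⌊q * J⌋₊) (F.tub ⌊q * J⌋₊ hq) A

/-- **The class of the tubes.** -/
def TubC (S : PCl m) (q : ℝ) : PCl m where
  St := TubSt S q
  mono := by
    rintro τ τ' J F A h ⟨J, F, A, hq, hS⟩
    exact ⟨J, F, A, hq, S.mono h hS⟩
  res := by
    rintro τ τ' J F A B h0 ⟨J, F, A, hq, hS⟩ hB hP
    refine ⟨J, F, B, hq, S.res h0 hS hB (le_trans ?_ hP)⟩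
    refine mul_le_mul_of_nonneg_right (Real.exp_le_exp.2 (neg_le_neg ?_)) (Pe_nonneg F.isLaw A)
    refine mul_le_mul_of_nonneg_left ?_ h0
    exact_mod_cast Nat.sub_le _ _

/-- Base statements for the tubes. -/
theorem bas_tub {S : PCl m} {q : ℝ} {Φ Ψ : Stat m} (J₂ : ℕ) (h : Bas S Φ)
    (hΨ : ∀ (J : ℕ) (F : Fam m J) (A : F.Ω → Prop) (hq : ⌊q * J⌋₊ ≤ J), J₂ ≤ J - ⌊q * J⌋₊ →
      Φ J F A → Ψ (J - ⌊q * J⌋₊) (F.tub ⌊q * J⌋₊ hq) A) : Bas (TubC S q) Ψ := by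
  obtain ⟨τ, hτ, J₁, h⟩ := h
  refine ⟨τ, hτ, max J₁ J₂, ?_⟩
  rintro J hJ F A ⟨J, F, A, hq, hS⟩
  exact hΨ J F A hq ((le_max_right _ _).trans hJ)
    (h J ((le_max_left _ _).trans (hJ.trans (Nat.sub_le _ _))) F A hS)

/-- The resolution of the tube. -/
theorem tub_res {q : ℝ} (hq0 : 0 ≤ q) (hq1 : q ≤ 1 / 2) (J : ℕ) :
    ⌊q * (J : ℝ)⌋₊ ≤ J ∧ (J : ℝ) ≤ 2 * ((J - ⌊q * (J : ℝ)⌋₊ : ℕ) : ℝ) := by
  have hJ : (0 : ℝ) ≤ J := Nat.cast_nonneg J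
  have h1 : (⌊q * (J : ℝ)⌋₊ : ℝ) ≤ q * J := Nat.floor_le (by positivity)
  have h2 : (⌊q * (J : ℝ)⌋₊ : ℝ) ≤ J := by nlinarith
  have h3 : ⌊q * (J : ℝ)⌋₊ ≤ J := by exact_mod_cast h2
  refine ⟨h3, ?_⟩
  rw [Nat.cast_sub h3]
  nlinarith

/-- The class of the tubes is nonempty. -/
theorem tub_ne {S : PCl m} (hS : S.Ne) {q : ℝ} (hq0 : 0 ≤ q) (hq1 : q ≤ 1 / 2) :
    (TubC S q).Ne := by
  intro τ hτ J₁
  obtain ⟨J, hJ, F, A, hA⟩ := hS τ hτ (2 * J₁)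
  obtain ⟨h1, h2⟩ := tub_res hq0 hq1 J
  refine ⟨J - ⌊q * (J : ℝ)⌋₊, ?_, F.tub _ h1, A, ⟨J, F, A, h1, hA⟩⟩
  have h3 : (2 * J₁ : ℝ) ≤ J := by exact_mod_cast hJ
  have h4 : (J₁ : ℝ) ≤ ((J - ⌊q * (J : ℝ)⌋₊ : ℕ) : ℝ) := by linarith
  exact_mod_cast h4

/-- The events in the tubes. -/
theorem tub_st {S : PCl m} {q C : ℝ} (hC : 0 ≤ C) (hq0 : 0 ≤ q) (hq1 : q ≤ 1 / 2)
    (h : ∀ (τ : ℝ) (J : ℕ) (F : Fam m J) (A : F.Ω → Prop), 0 < τ → S.St τ J F A →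
      0 < Pe F.p A ∧ ∀ h : IsLaw (Pool.Agent.H49.Ent.cond F.p A True),
        (F.res A True h).Tm (C * τ * J)) :
    ∀ (τ : ℝ) (J : ℕ) (F : Fam m J) (A : F.Ω → Prop), 0 < τ → (TubC S q).St τ J F A →
      0 < Pe F.p A ∧ ∀ h : IsLaw (Pool.Agent.H49.Ent.cond F.p A True),
        (F.res A True h).Tm (2 * C * τ * J) := by
  rintro τ J F A hτ ⟨J, F, A, hq, hS⟩
  obtain ⟨h1, h2⟩ := h τ J F A hτ hS
  refine ⟨h1, fun hl => ?_⟩
  have h3 := (tub_thm m).choose_spec.2 J (F.res A True hl) _ hq _ (h2 hl)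
  have h4 := h3.1
  have h5 := (tub_res hq0 hq1 J).2
  unfold Fam.Tm at h4 ⊢
  refine le_trans ?_ h4
  have h6 : C * τ * (J : ℝ) ≤ C * τ * (2 * ((J - ⌊q * (J : ℝ)⌋₊ : ℕ) : ℝ)) :=
    mul_le_mul_of_nonneg_left h5 (by positivity)
  linarith

/-- The number of values in the tubes. -/
theorem tub_cnt_bas {S : PCl m} {q M : ℝ} (hM : 0 ≤ M) (hq0 : 0 ≤ q) (hq1 : q ≤ 1 / 2)
    (h : Bas S (fun J F A => ∀ k : ℕ, k ≤ J → (cnt F.p (ptr F k) A : ℝ) ≤ Real.exp (M * J))) :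
    Bas (TubC S q) (fun J F A => ∀ k : ℕ, k ≤ J → (cnt F.p (ptr F k) A : ℝ) ≤
      Real.exp ((2 * (m * Real.log 99) + 2 * (m * Real.log 6) + 2 * M) * J)) := by
  refine bas_tub 1 h ?_
  intro J F A hq hJ' hA k hk
  obtain ⟨h1, h2⟩ := tub_res hq0 hq1 J
  obtain ⟨J', hJ'e⟩ : ∃ J', J' = J - ⌊q * (J : ℝ)⌋₊ := ⟨_, rfl⟩
  rw [← hJ'e] at hJ' h2
  have hJr : (1 : ℝ) ≤ J' := by exact_mod_cast hJ'
  have hJJ : 1 ≤ J := by omega
  have c1 := Tb.tub_cnt F hq A hk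
  have c2 := cnt_D F ⌊q * (J : ℝ)⌋₊ A
  have c3 := hA J le_rfl
  have l99 : 0 ≤ Real.log 99 := Real.log_nonneg (by norm_num)
  have l6 : 0 ≤ Real.log 6 := Real.log_nonneg (by norm_num)
  have e99 : ((99 : ℝ) ^ m) = Real.exp (m * Real.log 99) := by
    rw [mul_comm, Real.exp_mul, Real.exp_log (by norm_num), Real.rpow_natCast]
  have e6 : ((3 : ℝ) * 2 ^ ⌊q * (J : ℝ)⌋₊) ^ m ≤ Real.exp (m * Real.log 6 * J) := by
    have a1 : (3 : ℝ) * 2 ^ ⌊q * (J : ℝ)⌋₊ ≤ 6 ^ J := by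
      calc (3 : ℝ) * 2 ^ ⌊q * (J : ℝ)⌋₊ ≤ 3 ^ J * 2 ^ J := by
            refine mul_le_mul ?_ (pow_le_pow_right₀ (by norm_num) h1)
              (by positivity) (by positivity)
            calc (3 : ℝ) = 3 ^ 1 := (pow_one _).symm
              _ ≤ 3 ^ J := pow_le_pow_right₀ (by norm_num) hJJ
        _ = 6 ^ J := by rw [← mul_pow]; norm_num
    calc ((3 : ℝ) * 2 ^ ⌊q * (J : ℝ)⌋₊) ^ m ≤ (6 ^ J) ^ m :=
          pow_le_pow_left₀ (by positivity) a1 m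
      _ = Real.exp (m * Real.log 6 * J) := by
          have e1 : (m : ℝ) * Real.log 6 * J = Real.log 6 * ((J * m : ℕ) : ℝ) := by
            push_cast
            ring
          rw [← pow_mul, e1, Real.exp_mul, Real.exp_log (by norm_num), Real.rpow_natCast]
  have c4 : (cnt F.p (ptr (F.tub ⌊q * (J : ℝ)⌋₊ hq) k) A : ℝ) ≤
      99 ^ m * (99 ^ m * ((3 * 2 ^ ⌊q * (J : ℝ)⌋₊) ^ m * cnt F.p (ptr F J) A)) := by
    have c5 : (cnt F.p (ptr (F.tub ⌊q * (J : ℝ)⌋₊ hq) k) A : ℝ) ≤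
        99 ^ m * (99 ^ m * cnt F.p (fun ω => (F.D ⌊q * (J : ℝ)⌋₊ ω, ptr F J ω)) A) := by
      exact_mod_cast c1
    refine c5.trans ?_
    refine mul_le_mul_of_nonneg_left (mul_le_mul_of_nonneg_left c2 (by positivity))
      (by positivity)
  have c6 : (99 : ℝ) ^ m * (99 ^ m * ((3 * 2 ^ ⌊q * (J : ℝ)⌋₊) ^ m * cnt F.p (ptr F J) A)) ≤
      Real.exp (m * Real.log 99) * (Real.exp (m * Real.log 99) *
        (Real.exp (m * Real.log 6 * J) * Real.exp (M * J))) := by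
    rw [e99]
    refine mul_le_mul_of_nonneg_left (mul_le_mul_of_nonneg_left ?_ (Real.exp_pos _).le)
      (Real.exp_pos _).le
    exact mul_le_mul e6 c3 (Nat.cast_nonneg _) (Real.exp_pos _).le
  refine (c4.trans c6).trans ?_
  rw [← Real.exp_add, ← Real.exp_add, ← Real.exp_add]
  refine Real.exp_le_exp.2 ?_
  have b1 : (m : ℝ) * Real.log 99 ≤ m * Real.log 99 * J' := by
    have : 0 ≤ (m : ℝ) * Real.log 99 := by positivity
    nlinarith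
  have b2 : (m : ℝ) * Real.log 6 * J ≤ m * Real.log 6 * (2 * J') :=
    mul_le_mul_of_nonneg_left h2 (by positivity)
  have b3 : M * J ≤ M * (2 * J') := mul_le_mul_of_nonneg_left h2 hM
  rw [← hJ'e]
  linarith

/-- The number of the directions. -/
theorem H_D {J : ℕ} {F : Fam m J} {A : F.Ω → Prop} (hA : 0 < Pe F.p A) (n : ℕ) :
    H (Pool.Agent.H49.Ent.cond F.p A True) (F.D n) ≤ m * Real.log 3 + m * Real.log 2 * n := by
  have hl := isLaw_cond F.isLaw hA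
  have h1 := H_le_log_card hl.nonneg hl.sum_one (F.D n)
    (Fintype.piFinset fun _ : Fin m => Finset.Icc (-(2 : ℤ) ^ n) (2 ^ n))
    (fun ω _ => D_mem F n ω)
  refine h1.trans ?_
  rw [Fintype.card_piFinset, Finset.prod_const, Finset.card_univ, Fintype.card_fin]
  have h2 : (Finset.Icc (-(2 : ℤ) ^ n) (2 ^ n)).card ≤ 3 * 2 ^ n := by
    rw [Int.card_Icc]
    have : (1 : ℤ) ≤ 2 ^ n := one_le_pow₀ (by norm_num)
    have h3 : ((2 : ℤ) ^ n + 1 - -(2 : ℤ) ^ n).toNat ≤ ((3 * 2 ^ n : ℕ) : ℤ).toNat := by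
      refine Int.toNat_le_toNat ?_
      push_cast
      linarith
    rwa [Int.toNat_natCast] at h3
  have h0 : 0 < (Finset.Icc (-(2 : ℤ) ^ n) (2 ^ n)).card := by
    rw [Finset.card_pos]
    exact ⟨0, by
      rw [Finset.mem_Icc]
      have : (0 : ℤ) ≤ 2 ^ n := by positivity
      constructor <;> linarith⟩
  push_cast
  rw [Real.log_pow]
  have h3 : Real.log (Finset.Icc (-(2 : ℤ) ^ n) (2 ^ n)).card ≤ Real.log 3 + n * Real.log 2 := by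
    have h4 : Real.log (Finset.Icc (-(2 : ℤ) ^ n) (2 ^ n)).card ≤ Real.log (3 * 2 ^ n) := by
      refine Real.log_le_log (by exact_mod_cast h0) ?_
      exact_mod_cast h2
    rw [Real.log_mul (by norm_num) (by positivity), Real.log_pow] at h4
    exact h4
  have := mul_le_mul_of_nonneg_left h3 (Nat.cast_nonneg (α := ℝ) m)
  linarith

/-- **The gain in the tubes.** -/
theorem tub_gain_bas {S : PCl m} {q ρ C : ℝ} (hC : 0 ≤ C) (hρ : 0 < ρ) (hq0 : 0 ≤ q)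
    (hqρ : m * q ≤ ρ / 4)
    (hst : ∀ (τ : ℝ) (J : ℕ) (F : Fam m J) (A : F.Ω → Prop), 0 < τ → S.St τ J F A →
      0 < Pe F.p A ∧ ∀ h : IsLaw (Pool.Agent.H49.Ent.cond F.p A True),
        (F.res A True h).Tm (C * τ * J))
    (h : Bas S (fun J F A => ρ * J ≤ CH (Pool.Agent.H49.Ent.cond F.p A True) (F.D J) F.Z -
      CH (Pool.Agent.H49.Ent.cond F.p A True) (F.X J) F.W)) :
    Bas (TubC S q) (fun J F A => ρ / 2 * J ≤
      CH (Pool.Agent.H49.Ent.cond F.p A True) (F.D J) F.Z -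
      CH (Pool.Agent.H49.Ent.cond F.p A True) (F.X J) F.W) := by
  obtain ⟨C₁, hC₁, hg⟩ := tub_gain m
  obtain ⟨τ, hτ⟩ : ∃ τ, τ = ρ / (16 * (C + 1)) := ⟨_, rfl⟩
  have hτ0 : 0 < τ := by rw [hτ]; positivity
  have hτ1 : 2 * (C * τ) ≤ ρ / 8 := by
    have : 16 * (C + 1) * τ = ρ := by rw [hτ]; field_simp
    nlinarith
  have hl3 : 0 ≤ Real.log 3 := Real.log_nonneg (by norm_num)
  have hl2 : Real.log 2 ≤ 1 := by
    have := Real.log_two_lt_d9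
    linarith
  have hl20 : 0 ≤ Real.log 2 := Real.log_nonneg (by norm_num)
  obtain ⟨J₂, hJ₂⟩ := exists_nat_gt (8 * (C₁ + m * Real.log 3) / ρ)
  have h2 : Bas S (fun J F A => 0 < Pe F.p A ∧
      ∀ h : IsLaw (Pool.Agent.H49.Ent.cond F.p A True), (F.res A True h).Tm (C * τ * J)) :=
    ⟨τ, hτ0, 0, fun J _ F A hS => hst τ J F A hτ0 hS⟩
  refine bas_tub J₂ (h.and h2) ?_
  rintro J F A hq hJ' ⟨h3, h4, h5⟩
  have hl := isLaw_cond F.isLaw h4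
  have h6 := (hg J (F.res A True hl) _ hq _ (h5 hl)).2
  have h7 : CH (Pool.Agent.H49.Ent.cond F.p A True) (F.D ⌊q * (J : ℝ)⌋₊)
      (fun ω => (F.X J ω, F.W ω)) ≤ m * Real.log 3 + m * Real.log 2 * ⌊q * (J : ℝ)⌋₊ :=
    (CH_le_H' hl _ _).trans (H_D h4 _)
  have h8 : ρ * J - (m * Real.log 3 + m * Real.log 2 * ⌊q * (J : ℝ)⌋₊) - 2 * (C * τ * J) - C₁ ≤
      CH (Pool.Agent.H49.Ent.cond F.p A True) ((F.tub _ hq).D (J - ⌊q * (J : ℝ)⌋₊))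
        (F.tub _ hq).Z - CH (Pool.Agent.H49.Ent.cond F.p A True)
        ((F.tub _ hq).X (J - ⌊q * (J : ℝ)⌋₊)) (F.tub _ hq).W := by
    refine le_trans ?_ h6
    have e1 : CH (F.res A True hl).p ((F.res A True hl).D J) (F.res A True hl).Z =
      CH (Pool.Agent.H49.Ent.cond F.p A True) (F.D J) F.Z := rfl
    have e2 : CH (F.res A True hl).p ((F.res A True hl).X J) (F.res A True hl).W =
      CH (Pool.Agent.H49.Ent.cond F.p A True) (F.X J) F.W := rfl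
    have e3 : CH (F.res A True hl).p ((F.res A True hl).D ⌊q * (J : ℝ)⌋₊)
      (fun ω => ((F.res A True hl).X J ω, (F.res A True hl).W ω)) =
      CH (Pool.Agent.H49.Ent.cond F.p A True) (F.D ⌊q * (J : ℝ)⌋₊)
      (fun ω => (F.X J ω, F.W ω)) := rfl
    rw [e1, e2, e3]
    linarith
  refine le_trans ?_ h8
  have hJr : (0 : ℝ) ≤ J := Nat.cast_nonneg J
  have h9 : (⌊q * (J : ℝ)⌋₊ : ℝ) ≤ q * J := Nat.floor_le (by positivity)
  have h10 : (m : ℝ) * Real.log 2 * ⌊q * (J : ℝ)⌋₊ ≤ ρ / 4 * J := by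
    calc (m : ℝ) * Real.log 2 * ⌊q * (J : ℝ)⌋₊ ≤ m * 1 * (q * J) := by
          refine mul_le_mul (mul_le_mul_of_nonneg_left hl2 (Nat.cast_nonneg _)) h9
            (Nat.cast_nonneg _) (by positivity)
      _ = m * q * J := by ring
      _ ≤ ρ / 4 * J := mul_le_mul_of_nonneg_right hqρ hJr
  have h11 : 2 * (C * τ * J) ≤ ρ / 8 * J := by
    have := mul_le_mul_of_nonneg_right hτ1 hJr
    linarith
  have h12 : ((J - ⌊q * (J : ℝ)⌋₊ : ℕ) : ℝ) ≤ J := by exact_mod_cast Nat.sub_le _ _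
  have h13 : C₁ + m * Real.log 3 ≤ ρ / 8 * J := by
    have a1 : (J₂ : ℝ) ≤ J := by exact_mod_cast hJ'.trans (Nat.sub_le _ _)
    have a2 : 8 * (C₁ + m * Real.log 3) / ρ < J := hJ₂.trans_le a1
    rw [div_lt_iff₀ hρ] at a2
    linarith
  have h14 : ρ / 2 * ((J - ⌊q * (J : ℝ)⌋₊ : ℕ) : ℝ) ≤ ρ / 2 * J :=
    mul_le_mul_of_nonneg_left h12 (by positivity)
  linarith

end Pool.GEN
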