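import Pool.Agent.H72.ACT.Tub

/-!
# Zooming into a tube: the gain
-/

set_option autoImplicit false

namespace Pool.GEN

open Finset Real
open Pool.Agent.H49.Ent Pool.Agent.H32.Dense Pool.STK Pool.KA Pool.KA.TRC Pool.K2S Pool.PB
  Pool.S6C

/-- **The gain in the tube.** -/
theorem tub_gain (m : ℕ) : ∃ C : ℝ, 0 ≤ C ∧ ∀ (J : ℕ) (F : Fam m J) (q : ℕ) (hq : q ≤ J) (e : ℝ),
    F.Tm e → (F.tub q hq).Tm e ∧
    CH F.p (F.D J) F.Z - CH F.p (F.X J) F.W - CH F.p (F.D q) (fun ω => (F.X J ω, F.W ω)) -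
      2 * e - C ≤ CH F.p ((F.tub q hq).D (J - q)) (F.tub q hq).Z -
        CH F.p ((F.tub q hq).X (J - q)) (F.tub q hq).W := by
  obtain ⟨C, hC, h⟩ := tub_thm m
  have hcc : 0 ≤ cc m := by
    unfold cc
    exact mul_nonneg (by positivity) (Real.log_nonneg (by norm_num))
  refine ⟨C + cc m, by positivity, fun J F q hq e he => ?_⟩
  obtain ⟨h1, h2⟩ := h J F q hq e he
  refine ⟨h1, ?_⟩
  have hp := F.isLaw
  have hp0 := hp.nonneg
  have hJ : J - q + q = J := Nat.sub_add_cancel hq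
  have h3 := (abs_le.1 (h2 (J - q) hJ.le)).1
  have hV : (F.tub q hq).V (J - q) = CH F.p ((F.tub q hq).D (J - q)) (F.tub q hq).Z -
      CH F.p ((F.tub q hq).X (J - q)) (F.tub q hq).W := by
    unfold Fam.V
    have : (((J - q : ℕ) : ℝ) - ((J - q : ℕ) : ℝ)) = 0 := sub_self _
    rw [this, zero_mul, mul_zero, sub_zero]
    rfl
  have hJr : ((J : ℝ) - (((J - q : ℕ) : ℝ) + q)) = 0 := by
    rw [Nat.cast_sub hq]
    ring
  rw [hV, hJ, hJr, zero_mul, mul_zero, sub_zero] at h3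
  -- the directions
  have d1 := CH_chain hp0 (F.D J) (F.L q) F.Z
  have d2 : CH F.p (F.D J) F.Z ≤ CH F.p (fun ω => (F.D J ω, F.L q ω)) F.Z :=
    CH_mono_left hp0 fun ω ω' _ _ h => (Prod.ext_iff.1 (Prod.ext_iff.1 h).1).1
  -- the positions
  have x1 := CH_bayes hp0 (F.X J) (F.L q) F.W
  -- the time
  have t1 := CH_bayes hp0 F.T (F.L q) F.Z
  have t2 : CH F.p F.T F.Z ≤ J * Real.log 2 := CH_lt hp F.T F.Z J F.tim
  have t3 : CH F.p F.T (fun ω => (F.l ω, F.Z ω)) ≤ CH F.p F.T (fun ω => (F.L q ω, F.Z ω)) := by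
    refine CH_mono_cond hp0 fun ω ω' _ _ hh => ?_
    have a1 := Prod.ext_iff.1 hh
    have a2 : F.l ω = F.l ω' := a1.1
    have hu : F.u ω = F.u ω' := (Prod.ext_iff.mp a2).1
    have hd : F.d ω = F.d ω' := (Prod.ext_iff.mp a2).2
    refine Prod.ext ?_ a1.2
    show (fl q (F.u ω), fl q (F.d ω)) = (fl q (F.u ω'), fl q (F.d ω'))
    rw [hu, hd]
  unfold Fam.Tm at he
  have t4 : CH F.p (F.L q) (fun ω => (F.T ω, F.Z ω)) = CH F.p (F.L q) F.W := rfl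
  rw [t4] at t1
  -- the tube
  have l1 := CH_le_add hp0 (F.L q) (F.D q) (fun ω => (F.X J ω, F.W ω))
  have l2 : CH F.p (F.L q) (fun ω => (F.D q ω, (F.X J ω, F.W ω))) ≤ cc m := by
    refine Tb.CH_L F hq _ fun ω ω' _ _ hh => ?_
    have a1 := Prod.ext_iff.1 hh
    have a2 := Prod.ext_iff.1 a1.2
    exact Prod.ext a1.1 (Prod.ext a2.1 (Prod.ext_iff.1 a2.2).1)
  linarith

end Pool.GEN
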