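import Pool.Agent.H72.ACT.Stm
import Pool.Agent.H64.KA.TUB

/-!
# Zooming into a tube: positions, directions, number of values
-/

set_option autoImplicit false

namespace Pool.GEN

open Finset Real
open Pool.Agent.H49.Ent Pool.Agent.H32.Dense Pool.STK Pool.KA Pool.KA.TRC Pool.K2S Pool.PB
  Pool.S6C

variable {m J : ℕ}

/-- The number of values of a vector which is known up to `c`. -/
theorem cnt_vec {Ω γ : Type} [Fintype Ω] (p : Ω → ℝ) (X : Ω → Fin m → ℤ) (Y : Ω → γ)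
    {A : Ω → Prop} (c : ℕ)
    (h : ∀ ω ω', 0 < p ω → A ω → 0 < p ω' → A ω' → Y ω = Y ω' → ∀ k, |X ω k - X ω' k| ≤ c) :
    cnt p (fun ω => (X ω, Y ω)) A ≤ (2 * c + 1) ^ m * cnt p Y A := by
  classical
  obtain ⟨r, hr⟩ : ∃ r : γ → Fin m → ℤ, ∀ ω, 0 < p ω → A ω → ∀ k, |X ω k - r (Y ω) k| ≤ c := by
    refine ⟨fun y => if hy : ∃ ω, 0 < p ω ∧ A ω ∧ Y ω = y then X hy.choose else 0,
      fun ω h0 hA k => ?_⟩
    have hy : ∃ ω', 0 < p ω' ∧ A ω' ∧ Y ω' = Y ω := ⟨ω, h0, hA, rfl⟩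
    simp only [dif_pos hy]
    obtain ⟨h1, h2, h3⟩ := hy.choose_spec
    exact h ω _ h0 hA h1 h2 h3.symm k
  have h1 := cnt_comp_le p (fun ω => (fun k => X ω k - r (Y ω) k, Y ω))
    (fun ω => (X ω, Y ω)) (A := A) (fun e => (fun k => e.1 k + r e.2 k, e.2)) (fun ω _ _ => by
      refine Prod.ext ?_ rfl
      funext k
      simp)
  have h2 := cnt_le_card p (fun ω => (fun k => X ω k - r (Y ω) k, Y ω)) (A := A)
    ((Fintype.piFinset fun _ : Fin m => Finset.Icc (-(c : ℤ)) c) ×ˢ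
      ((univ.filter fun ω => 0 < p ω ∧ A ω).image Y)) (by
      intro ω h0 hA
      rw [Finset.mem_product]
      refine ⟨?_, mem_image_of_mem Y ?_⟩
      · rw [Fintype.mem_piFinset]
        intro k
        rw [Finset.mem_Icc]
        exact abs_le.1 (hr ω h0 hA k)
      · rw [mem_filter]
        exact ⟨mem_univ ω, h0, hA⟩)
  rw [Finset.card_product, Fintype.card_piFinset] at h2
  have h3 : (Finset.Icc (-(c : ℤ)) c).card = 2 * c + 1 := by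
    rw [Int.card_Icc]
    have : ((c : ℤ) + 1 - -(c : ℤ)) = ((2 * c + 1 : ℕ) : ℤ) := by push_cast; ring
    rw [this, Int.toNat_natCast]
  simp only [h3, Finset.prod_const, Finset.card_univ, Fintype.card_fin] at h2
  refine h1.trans (h2.trans (Nat.mul_le_mul_left _ (le_of_eq ?_)))
  unfold cnt
  congr!

namespace Tb

section

variable (F : Fam m J) {q : ℕ} (hq : q ≤ J)

/-- The position in the tube. -/
theorem close {j : ℕ} (hj : j + q ≤ J) (ω : F.Ω) (k : Fin m) :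
    |(2 : ℝ) ^ j * (F.tub q hq).x ω k - (2 ^ (j + q) * F.x ω k -
      2 ^ j * ((⌊(2 : ℝ) ^ q * F.u ω k⌋ : ℝ) + F.t ω * (⌊(2 : ℝ) ^ q * F.d ω k⌋ : ℝ)))| ≤ 1 := by
  obtain ⟨T', hT'⟩ : ∃ T' : ℕ, T' = F.T ω / 2 ^ q := ⟨_, rfl⟩
  have e0 := Int.self_sub_floor ((2 : ℝ) ^ q * F.u ω k)
  have e0' := Int.self_sub_floor ((2 : ℝ) ^ q * F.d ω k)
  have e1 : (2 : ℝ) ^ j * (F.tub q hq).x ω k - (2 ^ (j + q) * F.x ω k -
      2 ^ j * ((⌊(2 : ℝ) ^ q * F.u ω k⌋ : ℝ) + F.t ω * (⌊(2 : ℝ) ^ q * F.d ω k⌋ : ℝ))) =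
      2 ^ j * ((T' : ℝ) / 2 ^ (J - q) - (F.T ω : ℝ) / 2 ^ J) * Int.fract (2 ^ q * F.d ω k) := by
    change (2 : ℝ) ^ j * (Int.fract (2 ^ q * F.u ω k) +
      ((F.T ω / 2 ^ q : ℕ) : ℝ) / 2 ^ (J - q) * Int.fract (2 ^ q * F.d ω k)) -
      (2 ^ (j + q) * (F.u ω k + (F.T ω : ℝ) / 2 ^ J * F.d ω k) -
        2 ^ j * ((⌊(2 : ℝ) ^ q * F.u ω k⌋ : ℝ) +
          (F.T ω : ℝ) / 2 ^ J * (⌊(2 : ℝ) ^ q * F.d ω k⌋ : ℝ))) = _
    rw [← hT', pow_add, ← e0, ← e0']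
    ring
  have e2 : (2 : ℝ) ^ J = 2 ^ q * 2 ^ (J - q) := by
    rw [← pow_add, Nat.add_sub_cancel' hq]
  have hdm := Nat.div_add_mod (F.T ω) (2 ^ q)
  have hml := Nat.mod_lt (F.T ω) (y := 2 ^ q) (by positivity)
  rw [← hT'] at hdm
  have e3 : (F.T ω : ℝ) = 2 ^ q * (T' : ℝ) + ((F.T ω % 2 ^ q : ℕ) : ℝ) := by
    exact_mod_cast hdm.symm
  have e4 : ((F.T ω % 2 ^ q : ℕ) : ℝ) < 2 ^ q := by exact_mod_cast hml
  have e5 : (0 : ℝ) ≤ ((F.T ω % 2 ^ q : ℕ) : ℝ) := by positivity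
  have p1 : (0 : ℝ) < 2 ^ q := by positivity
  have p2 : (0 : ℝ) < 2 ^ (J - q) := by positivity
  have e6 : (T' : ℝ) / 2 ^ (J - q) - (F.T ω : ℝ) / 2 ^ J =
      -(((F.T ω % 2 ^ q : ℕ) : ℝ) / 2 ^ q / 2 ^ (J - q)) := by
    rw [e2]
    field_simp
    linarith
  have f0 : 0 ≤ Int.fract ((2 : ℝ) ^ q * F.d ω k) := Int.fract_nonneg _
  have f1 : Int.fract ((2 : ℝ) ^ q * F.d ω k) ≤ 1 := (Int.fract_lt_one _).le
  rw [e1, e6, abs_mul, abs_mul, abs_neg, abs_of_nonneg (a := (2 : ℝ) ^ j) (by positivity),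
    abs_of_nonneg (a := ((F.T ω % 2 ^ q : ℕ) : ℝ) / 2 ^ q / 2 ^ (J - q)) (by positivity),
    abs_of_nonneg f0]
  have e7 : ((F.T ω % 2 ^ q : ℕ) : ℝ) / 2 ^ q ≤ 1 := by
    rw [div_le_one p1]
    exact e4.le
  have e8 : (2 : ℝ) ^ j * (((F.T ω % 2 ^ q : ℕ) : ℝ) / 2 ^ q / 2 ^ (J - q)) ≤ 1 := by
    have hj' : j ≤ J - q := by omega
    have e9 : (2 : ℝ) ^ j ≤ 2 ^ (J - q) := pow_le_pow_right₀ (by norm_num) hj'
    have e10 : ((F.T ω % 2 ^ q : ℕ) : ℝ) / 2 ^ q / 2 ^ (J - q) ≤ 1 / 2 ^ (J - q) :=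
      div_le_div_of_nonneg_right e7 p2.le
    calc (2 : ℝ) ^ j * (((F.T ω % 2 ^ q : ℕ) : ℝ) / 2 ^ q / 2 ^ (J - q)) ≤
        2 ^ (J - q) * (1 / 2 ^ (J - q)) := mul_le_mul e9 e10 (by positivity) p2.le
      _ = 1 := by field_simp
  calc _ ≤ (1 : ℝ) * 1 := mul_le_mul e8 f1 f0 (by norm_num)
    _ = 1 := by norm_num

/-- The position in the tube, from the position, the time and the tube. -/
theorem X_near {j : ℕ} (hj : j + q ≤ J) {ω ω' : F.Ω} (hT : F.T ω = F.T ω')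
    (hL : F.L q ω = F.L q ω') (hX : F.X (j + q) ω = F.X (j + q) ω') (k : Fin m) :
    |(F.tub q hq).X j ω k - (F.tub q hq).X j ω' k| ≤ 49 := by
  have h3 := close F hq hj ω k
  have h4 := close F hq hj ω' k
  have u2 : ⌊(2 : ℝ) ^ q * F.u ω k⌋ = ⌊(2 : ℝ) ^ q * F.u ω' k⌋ :=
    congrFun (Prod.ext_iff.mp hL).1 k
  have d2 : ⌊(2 : ℝ) ^ q * F.d ω k⌋ = ⌊(2 : ℝ) ^ q * F.d ω' k⌋ :=
    congrFun (Prod.ext_iff.mp hL).2 k
  have ht : F.t ω = F.t ω' := by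
    unfold Fam.t
    rw [hT]
  have h2 : ⌊(2 : ℝ) ^ (j + q) * F.x ω k⌋ = ⌊(2 : ℝ) ^ (j + q) * F.x ω' k⌋ := congrFun hX k
  rw [u2, d2, ht] at h3
  have a1 := Int.floor_le ((2 : ℝ) ^ (j + q) * F.x ω k)
  have a2 := Int.lt_floor_add_one ((2 : ℝ) ^ (j + q) * F.x ω k)
  have b1 := Int.floor_le ((2 : ℝ) ^ (j + q) * F.x ω' k)
  have b2 := Int.lt_floor_add_one ((2 : ℝ) ^ (j + q) * F.x ω' k)
  have g1 := Int.floor_le ((2 : ℝ) ^ j * (F.tub q hq).x ω k)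
  have g2 := Int.lt_floor_add_one ((2 : ℝ) ^ j * (F.tub q hq).x ω k)
  have g3 := Int.floor_le ((2 : ℝ) ^ j * (F.tub q hq).x ω' k)
  have g4 := Int.lt_floor_add_one ((2 : ℝ) ^ j * (F.tub q hq).x ω' k)
  rw [h2] at a1 a2
  rw [abs_le] at h3 h4
  change |⌊(2 : ℝ) ^ j * (F.tub q hq).x ω k⌋ - ⌊(2 : ℝ) ^ j * (F.tub q hq).x ω' k⌋| ≤ 49
  have key : |((⌊(2 : ℝ) ^ j * (F.tub q hq).x ω k⌋ - ⌊(2 : ℝ) ^ j * (F.tub q hq).x ω' k⌋ : ℤ) :
      ℝ)| ≤ 49 := by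
    rw [abs_le]
    push_cast
    constructor <;> linarith [h3.1, h3.2, h4.1, h4.2]
  exact_mod_cast key

/-- The position at time zero, from the position, the time and the direction. -/
theorem U_near (hq : q ≤ J) {ω ω' : F.Ω} (hT : F.T ω = F.T ω') (hD : F.D q ω = F.D q ω')
    (hX : F.X J ω = F.X J ω') (k : Fin m) :
    |fl q (F.u ω) k - fl q (F.u ω') k| ≤ 49 := by
  have hX' : F.X q ω = F.X q ω' := Pool.STK.B58.fl_fine hq hX
  have h2 : ⌊(2 : ℝ) ^ q * F.x ω k⌋ = ⌊(2 : ℝ) ^ q * F.x ω' k⌋ := congrFun hX' k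
  have d2 : ⌊(2 : ℝ) ^ q * F.d ω k⌋ = ⌊(2 : ℝ) ^ q * F.d ω' k⌋ := congrFun hD k
  have ht : F.t ω = F.t ω' := by
    unfold Fam.t
    rw [hT]
  have ht0 : 0 ≤ F.t ω' := by
    unfold Fam.t
    positivity
  have ht1 : F.t ω' ≤ 1 := by
    unfold Fam.t
    rw [div_le_one (by positivity)]
    have := (F.tim ω').le
    exact_mod_cast this
  have a1 := Int.floor_le ((2 : ℝ) ^ q * F.x ω k)
  have a2 := Int.lt_floor_add_one ((2 : ℝ) ^ q * F.x ω k)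
  have b1 := Int.floor_le ((2 : ℝ) ^ q * F.x ω' k)
  have b2 := Int.lt_floor_add_one ((2 : ℝ) ^ q * F.x ω' k)
  have c1 := Int.floor_le ((2 : ℝ) ^ q * F.d ω k)
  have c2 := Int.lt_floor_add_one ((2 : ℝ) ^ q * F.d ω k)
  have c3 := Int.floor_le ((2 : ℝ) ^ q * F.d ω' k)
  have c4 := Int.lt_floor_add_one ((2 : ℝ) ^ q * F.d ω' k)
  have g1 := Int.floor_le ((2 : ℝ) ^ q * F.u ω k)
  have g2 := Int.lt_floor_add_one ((2 : ℝ) ^ q * F.u ω k)
  have g3 := Int.floor_le ((2 : ℝ) ^ q * F.u ω' k)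
  have g4 := Int.lt_floor_add_one ((2 : ℝ) ^ q * F.u ω' k)
  rw [h2] at a1 a2
  rw [d2] at c1 c2
  have e1 : (2 : ℝ) ^ q * F.x ω k = 2 ^ q * F.u ω k + F.t ω' * (2 ^ q * F.d ω k) := by
    unfold Fam.x
    rw [ht]
    ring
  have e2 : (2 : ℝ) ^ q * F.x ω' k = 2 ^ q * F.u ω' k + F.t ω' * (2 ^ q * F.d ω' k) := by
    unfold Fam.x
    ring
  have e3 : |(2 : ℝ) ^ q * F.d ω k - 2 ^ q * F.d ω' k| ≤ 1 := by
    rw [abs_le]
    constructor <;> linarith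
  have e4 : |F.t ω' * ((2 : ℝ) ^ q * F.d ω k - 2 ^ q * F.d ω' k)| ≤ 1 := by
    rw [abs_mul, abs_of_nonneg ht0]
    calc _ ≤ (1 : ℝ) * 1 := mul_le_mul ht1 e3 (abs_nonneg _) (by norm_num)
      _ = 1 := by norm_num
  rw [abs_le] at e4
  change |⌊(2 : ℝ) ^ q * F.u ω k⌋ - ⌊(2 : ℝ) ^ q * F.u ω' k⌋| ≤ 49
  have key : |((⌊(2 : ℝ) ^ q * F.u ω k⌋ - ⌊(2 : ℝ) ^ q * F.u ω' k⌋ : ℤ) : ℝ)| ≤ 49 := by
    rw [abs_le]
    push_cast
    constructor <;> linarith [e4.1, e4.2]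
  exact_mod_cast key

/-- The entropy of the tube given the point and the direction. -/
theorem CH_L (hq : q ≤ J) {S : Type} (V : F.Ω → S)
    (hV : Det F.p V (fun ω => (F.D q ω, (F.X J ω, F.T ω)))) : CH F.p (F.L q) V ≤ cc m := by
  have hp := F.isLaw
  have h1 : CH F.p (F.L q) V = CH F.p (fun ω => fl q (F.u ω)) V := by
    refine CH_congr hp.nonneg ?_ ?_ (fun _ _ _ _ h => h) (fun _ _ _ _ h => h)
    · intro ω ω' _ _ h
      exact (Prod.ext_iff.1 (Prod.ext_iff.1 h).1).1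
    · intro ω ω' a b h
      have h2 := Prod.ext_iff.1 h
      exact Prod.ext h2.1 (Prod.ext_iff.1 (hV ω ω' a b h2.2)).1
  rw [h1]
  have h2 := CH_le_vec hp.nonneg hp.sum_one (fun ω => fl q (F.u ω)) V (fun _ => 49)
    (fun ω ω' a b hh k => by
      have h3 := Prod.ext_iff.1 (hV ω ω' a b hh)
      have h4 := Prod.ext_iff.1 h3.2
      exact_mod_cast U_near F hq h4.2 h3.1 h4.1 k)
  rw [Ex_const hp.sum_one] at h2
  have h3 : (m : ℝ) * Real.log (2 * 49 + 1) ≤ cc m := by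
    unfold cc
    refine mul_le_mul_of_nonneg_left (Real.log_le_log (by norm_num) (by norm_num)) (by positivity)
  linarith

/-- The entropy of the position in the tube given the point and the tube. -/
theorem CH_X {j : ℕ} (hj : j + q ≤ J) {S : Type} (V : F.Ω → S)
    (hV : Det F.p V (fun ω => (F.L q ω, (F.X (j + q) ω, F.T ω)))) :
    CH F.p ((F.tub q hq).X j) V ≤ cc m := by
  have hp := F.isLaw
  have h2 := CH_le_vec hp.nonneg hp.sum_one ((F.tub q hq).X j) V (fun _ => 49)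
    (fun ω ω' a b hh k => by
      have h3 := Prod.ext_iff.1 (hV ω ω' a b hh)
      have h4 := Prod.ext_iff.1 h3.2
      exact_mod_cast X_near F hq hj h4.2 h3.1 h4.1 k)
  rw [Ex_const hp.sum_one] at h2
  have h3 : (m : ℝ) * Real.log (2 * 49 + 1) ≤ cc m := by
    unfold cc
    refine mul_le_mul_of_nonneg_left (Real.log_le_log (by norm_num) (by norm_num)) (by positivity)
  linarith

/-- The digits of the direction in the tube. -/
theorem tub_D (n : ℕ) (ω : F.Ω) (i : Fin m) :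
    (F.tub q hq).D n ω i = F.D (q + n) ω i - 2 ^ n * (F.L q ω).2 i :=
  TUB.floor_fract q n (F.d ω i)

/-- **The directions in the tube.** -/
theorem dir (n n' : ℕ) (kap : Fin m) :
    CH F.p (fun ω => F.D (q + n') ω kap) (fun ω => (F.D (q + n) ω, (F.X J ω, F.W ω))) -
      2 * cc m ≤ CH F.p (fun ω => (F.tub q hq).D n' ω kap)
        (fun ω => ((F.tub q hq).D n ω, ((F.tub q hq).X (J - q) ω, (F.tub q hq).W ω))) := by
  have hp := F.isLaw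
  have hp0 := hp.nonneg
  have hJ : J - q + q = J := Nat.sub_add_cancel hq
  obtain ⟨c0, hc0⟩ : ∃ c0 : F.Ω → (Fin m → ℤ) × ((Fin m → ℤ) × (ℕ × F.ζ)),
    c0 = fun ω => (F.D (q + n) ω, (F.X J ω, F.W ω)) := ⟨_, rfl⟩
  obtain ⟨X', hX'⟩ : ∃ X' : F.Ω → Fin m → ℤ, X' = (F.tub q hq).X (J - q) := ⟨_, rfl⟩
  obtain ⟨Y, hY⟩ : ∃ Y : F.Ω → ℤ, Y = fun ω => F.D (q + n') ω kap := ⟨_, rfl⟩
  obtain ⟨Y', hY'⟩ : ∃ Y' : F.Ω → ℤ, Y' = fun ω => (F.tub q hq).D n' ω kap := ⟨_, rfl⟩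
  have hYY : ∀ ω, Y' ω = Y ω - 2 ^ n' * (F.L q ω).2 kap := fun ω => by
    rw [hY, hY']
    exact tub_D F hq n' ω kap
  -- more conditions
  have h1 : CH F.p Y' (fun ω => (X' ω, (F.L q ω, c0 ω))) ≤ CH F.p Y'
      (fun ω => ((F.tub q hq).D n ω, ((F.tub q hq).X (J - q) ω, (F.tub q hq).W ω))) := by
    refine CH_mono_cond hp0 ?_
    intro ω ω' _ _ h
    have a1 := Prod.ext_iff.1 h
    have a2 := Prod.ext_iff.1 a1.2
    have hL : F.L q ω = F.L q ω' := a2.1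
    have hc : c0 ω = c0 ω' := a2.2
    rw [hc0] at hc
    have a3 := Prod.ext_iff.1 hc
    have hD : F.D (q + n) ω = F.D (q + n) ω' := a3.1
    have hW : F.W ω = F.W ω' := (Prod.ext_iff.1 a3.2).2
    have hT : F.T ω = F.T ω' := (Prod.ext_iff.1 hW).1
    have hZ : F.Z ω = F.Z ω' := (Prod.ext_iff.1 hW).2
    refine Prod.ext ?_ (Prod.ext ?_ (Prod.ext ?_ (Prod.ext hL hZ)))
    · funext i
      show (F.tub q hq).D n ω i = (F.tub q hq).D n ω' i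
      rw [tub_D F hq n ω i, tub_D F hq n ω' i, hD, hL]
    · have := a1.1
      rw [hX'] at this
      exact this
    · show F.T ω / 2 ^ q = F.T ω' / 2 ^ q
      rw [hT]
  have h2 : CH F.p Y' (fun ω => (X' ω, (F.L q ω, c0 ω))) =
      CH F.p Y (fun ω => (X' ω, (F.L q ω, c0 ω))) := by
    refine CH_congr hp0 ?_ ?_ (fun _ _ _ _ h => h) (fun _ _ _ _ h => h)
    · intro ω ω' _ _ h
      have a1 := Prod.ext_iff.1 h
      have hL : F.L q ω = F.L q ω' := (Prod.ext_iff.1 (Prod.ext_iff.1 a1.2).2).1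
      have a2 : Y' ω = Y' ω' := a1.1
      rw [hYY, hYY, hL] at a2
      linarith
    · intro ω ω' _ _ h
      have a1 := Prod.ext_iff.1 h
      have hL : F.L q ω = F.L q ω' := (Prod.ext_iff.1 (Prod.ext_iff.1 a1.2).2).1
      have a2 : Y ω = Y ω' := a1.1
      show Y' ω = Y' ω'
      rw [hYY, hYY, hL, a2]
  have h3 := CH_le_add hp0 Y (fun ω => (X' ω, F.L q ω)) c0
  have h4 : CH F.p Y (fun ω => ((X' ω, F.L q ω), c0 ω)) =
      CH F.p Y (fun ω => (X' ω, (F.L q ω, c0 ω))) := by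
    refine CH_congr hp0 (fun _ _ _ _ h => (Prod.ext_iff.1 h).1)
      (fun _ _ _ _ h => (Prod.ext_iff.1 h).1) ?_ ?_
    · intro ω ω' _ _ h
      simp only [Prod.mk.injEq] at h ⊢
      exact ⟨h.1.1, h.1.2, h.2⟩
    · intro ω ω' _ _ h
      simp only [Prod.mk.injEq] at h ⊢
      exact ⟨⟨h.1, h.2.1⟩, h.2.2⟩
  have h5 := CH_chain hp0 X' (F.L q) c0
  have h6 : CH F.p (F.L q) c0 ≤ cc m := by
    refine CH_L F hq c0 ?_
    intro ω ω' _ _ h
    rw [hc0] at h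
    have a3 := Prod.ext_iff.1 h
    have a4 := Prod.ext_iff.1 a3.2
    refine Prod.ext (Pool.STK.B58.fl_fine (Nat.le_add_right q n) a3.1) (Prod.ext a4.1 ?_)
    exact (Prod.ext_iff.1 a4.2).1
  have h7 : CH F.p X' (fun ω => (F.L q ω, c0 ω)) ≤ cc m := by
    rw [hX']
    refine CH_X F hq (by omega) _ ?_
    intro ω ω' _ _ h
    have a1 := Prod.ext_iff.1 h
    have a2 : c0 ω = c0 ω' := a1.2
    rw [hc0] at a2
    have a3 := Prod.ext_iff.1 a2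
    have a4 := Prod.ext_iff.1 a3.2
    refine Prod.ext a1.1 (Prod.ext ?_ ?_)
    · show F.X (J - q + q) ω = F.X (J - q + q) ω'
      rw [hJ]
      exact a4.1
    · exact (Prod.ext_iff.1 a4.2).1
  have h8 : CH F.p Y c0 - 2 * cc m ≤ CH F.p Y'
      (fun ω => ((F.tub q hq).D n ω, ((F.tub q hq).X (J - q) ω, (F.tub q hq).W ω))) := by
    linarith
  rw [hY, hY', hc0] at h8
  exact h8

/-- **The number of values in the tube.** -/
theorem tub_cnt (A : F.Ω → Prop) {k : ℕ} (hk : k ≤ J - q) :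
    cnt F.p (ptr (F.tub q hq) k) A ≤ 99 ^ m * (99 ^ m * cnt F.p (fun ω => (F.D q ω, ptr F J ω)) A)
    := by
  classical
  have hJ : J - q + q = J := Nat.sub_add_cancel hq
  obtain ⟨φ, hφ⟩ := ptr_coarse (F.tub q hq) hk
  have h1 : cnt F.p (ptr (F.tub q hq) k) A ≤ cnt F.p (fun ω => ((F.tub q hq).X (J - q) ω,
      (fl q (F.u ω), (F.D q ω, ptr F J ω)))) A := by
    refine cnt_comp_le F.p _ _ (fun e => φ (e.1, (e.2.2.2.2.1 / 2 ^ q,
      ((e.2.1, e.2.2.1), e.2.2.2.2.2)))) fun ω _ _ => ?_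
    rw [hφ ω]
    rfl
  have h2 := cnt_vec F.p ((F.tub q hq).X (J - q)) (fun ω => (fl q (F.u ω), (F.D q ω, ptr F J ω)))
    (A := A) 49 (by
      intro ω ω' _ _ _ _ h
      have a1 := Prod.ext_iff.1 h
      have a2 := Prod.ext_iff.1 a1.2
      have a3 : ptr F J ω = ptr F J ω' := a2.2
      have a4 := Prod.ext_iff.1 a3
      have hT : F.T ω = F.T ω' := (Prod.ext_iff.1 a4.2).1
      refine X_near F hq (by omega) hT (Prod.ext a1.1 a2.1) ?_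
      show F.X (J - q + q) ω = F.X (J - q + q) ω'
      rw [hJ]
      exact a4.1)
  have h3 := cnt_vec F.p (fun ω => fl q (F.u ω)) (fun ω => (F.D q ω, ptr F J ω)) (A := A) 49 (by
      intro ω ω' _ _ _ _ h
      have a2 := Prod.ext_iff.1 h
      have a3 : ptr F J ω = ptr F J ω' := a2.2
      have a4 := Prod.ext_iff.1 a3
      have hT : F.T ω = F.T ω' := (Prod.ext_iff.1 a4.2).1
      exact U_near F hq hT a2.1 a4.1)
  exact h1.trans (h2.trans (Nat.mul_le_mul_left _ h3))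

end

end Tb

end Pool.GEN
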